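import Pool.Agent.helper55.NM.Spec

set_option autoImplicit false

namespace Pool.Agent.helper59.NM

open Pool.Agent.NM Finset Nat

theorem PTB_lt {q : ℕ} (y : Fin q → ℝ) (τ : Equiv.Perm (Fin q)) (hy : ∀ i, 0 < y i) {i j : ℕ}
    (h : i < j) (hj : j ≤ q) : Yp y τ i < Yp y τ j := by
  unfold Yp
  refine Finset.sum_lt_sum_of_subset (i := (⟨i, by omega⟩ : Fin q)) ?_ ?_ ?_ ?_ ?_
  · intro a ha
    simp only [mem_filter, mem_univ, true_and] at ha ⊢
    omega
  · simp [h]
  · simp
  · exact hy _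
  · intro b _ _
    exact (hy _).le

theorem PTB_le {q : ℕ} (y : Fin q → ℝ) (τ : Equiv.Perm (Fin q)) (hy : ∀ i, 0 < y i) {i j : ℕ}
    (h : i ≤ j) (hj : j ≤ q) : Yp y τ i ≤ Yp y τ j := by
  rcases Nat.lt_or_ge i j with h1 | h1
  · exact (PTB_lt y τ hy h1 hj).le
  · have : i = j := by omega
    rw [this]

theorem PTB_inj {q : ℕ} (y : Fin q → ℝ) (τ : Equiv.Perm (Fin q)) (hy : ∀ i, 0 < y i) {i j : ℕ}
    (hi : i ≤ q) (hj : j ≤ q) (h : Yp y τ i = Yp y τ j) : i = j := by
  rcases Nat.lt_trichotomy i j with h1 | h1 | h1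
  · have := PTB_lt y τ hy h1 hj
    linarith
  · exact h1
  · have := PTB_lt y τ hy h1 hi
    linarith

theorem PTB_zero {q : ℕ} (y : Fin q → ℝ) (τ : Equiv.Perm (Fin q)) : Yp y τ 0 = 0 := by
  unfold Yp
  simp

theorem PTB (hGG2 : GG2_stmt) (hGG3 : GG3_stmt) (hBIN : BIN_stmt) : PTB_stmt := by
  classical
  intro p q k L X y ε τ hX hy hp hε hpL hkq hpn hρ1 hρ2 hR hgood
  have hk1 : 1 ≤ k := by omega
  have hppos : (0 : ℝ) < p := by
    have : 0 < p := by omega
    exact_mod_cast this
  have hnpos : (0 : ℝ) < (p : ℝ) + q := by positivity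
  set ρ : ℝ := (k : ℝ) / ((p : ℝ) + q) with hρ
  set R : ℝ := 1 - 2 * ε with hRdef
  have hε2 : ε ≤ 1 / 12 := by linarith
  have hR0 : 0 ≤ R := by rw [hRdef]; linarith
  have hR1 : R ≤ 1 := by rw [hRdef]; linarith
  have hρ0 : 0 ≤ ρ := by linarith
  have hρ3 : 0 ≤ 1 - ρ := by linarith
  have hρ4 : ρ ≤ 1 := by linarith
  have hC0 : (0 : ℝ) ≤ ((p + q).choose k : ℝ) := by positivity
  -- the positive total
  have hYk : 0 < Yp y τ k := by
    have := PTB_lt y τ hy (i := 0) (j := k) (by omega) hkq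
    rwa [PTB_zero] at this
  let Pr : Finset (Fin p) → ℕ → Prop := fun I j => I.card + j ≤ k ∧ Yp y τ j = ∑ i ∈ I, X i
  let J : Finset (Fin p) → ℕ := fun I =>
    if h : ∃ j, j ≤ q ∧ Pr I j then h.choose else 0
  let H0 : Finset (Finset (Fin p)) :=
    univ.filter (fun I => I.Nonempty ∧ ∃ j, j ≤ q ∧ Pr I j)
  have hJ : ∀ I ∈ H0, J I ≤ q ∧ I.card + J I ≤ k ∧ Yp y τ (J I) = ∑ i ∈ I, X i := by
    intro I hI
    have hI2 : I.Nonempty ∧ ∃ j, j ≤ q ∧ Pr I j := by
      simpa [H0] using hI
    have h := hI2.2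
    have e : J I = h.choose := by
      simp only [J]
      rw [dif_pos h]
    rw [e]
    exact h.choose_spec
  have hne : ∀ I ∈ H0, I.Nonempty := by
    intro I hI
    have hI2 : I.Nonempty ∧ ∃ j, j ≤ q ∧ Pr I j := by
      simpa [H0] using hI
    exact hI2.1
  let d : Finset (Fin p) → ℕ := fun I => k - I.card - J I
  have hd : ∀ I ∈ H0, I.card + J I + d I = k := by
    intro I hI
    have := (hJ I hI).2.1
    simp only [d]
    omega
  -- the weight
  have hin : ∀ I : Finset (Fin p), I.Nonempty →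
      (∑ j ∈ range (q + 1), if I.card + j ≤ k ∧ Yp y τ j = ∑ i ∈ I, X i then q.choose j else 0) ≤
        if I ∈ H0 then q.choose (J I) else 0 := by
    intro I hI
    by_cases hI0 : I ∈ H0
    · rw [if_pos hI0]
      rw [Finset.sum_eq_single (J I)]
      · split_ifs
        · exact le_rfl
        · exact Nat.zero_le _
      · intro j hj hne'
        rw [if_neg]
        rintro ⟨-, h2⟩
        apply hne'
        have h3 := hJ I hI0
        exact PTB_inj y τ hy (by have := mem_range.mp hj; omega) h3.1 (by rw [h2, h3.2.2])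
      · intro h
        exfalso
        apply h
        have h3 := hJ I hI0
        exact mem_range.mpr (by omega)
    · rw [if_neg hI0]
      apply le_of_eq
      apply Finset.sum_eq_zero
      intro j hj
      rw [if_neg]
      intro h
      apply hI0
      simp only [H0, mem_filter, mem_univ, true_and]
      exact ⟨hI, j, by have := mem_range.mp hj; omega, h⟩
  have hW : Wt X y k τ ≤ ∑ I ∈ H0, q.choose (J I) := by
    unfold Wt
    calc _ ≤ ∑ I ∈ univ.filter (fun I : Finset (Fin p) => I.Nonempty),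
          (if I ∈ H0 then q.choose (J I) else 0) := by
            apply Finset.sum_le_sum
            intro I hI
            have hI2 : I.Nonempty := by simpa using hI
            exact hin I hI2
      _ = ∑ I ∈ (univ.filter (fun I : Finset (Fin p) => I.Nonempty)) ∩ H0, q.choose (J I) := by
            rw [Finset.sum_ite_mem]
      _ ≤ ∑ I ∈ H0, q.choose (J I) :=
            Finset.sum_le_sum_of_subset Finset.inter_subset_right
  -- each term
  have hterm : ∀ I ∈ H0, (1 - (p : ℝ) ^ 2 / ((p : ℝ) + q)) * (q.choose (J I) : ℝ) ≤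
      ρ ^ I.card * (1 - ρ) ^ (p - I.card) * R ^ d I * ((p + q).choose k : ℝ) := by
    intro I hI
    have h1 : I.card ≤ p := by
      have := Finset.card_le_univ I
      simpa using this
    have h2 := hd I hI
    have h3 := hBIN p q k I.card (d I) R h1 (by omega) hkq hpn hR0 hR
    have h4 : k - I.card - d I = J I := by omega
    rw [h4] at h3
    exact h3
  have hfac : 0 ≤ 1 - (p : ℝ) ^ 2 / ((p : ℝ) + q) := by
    have h1 : ((p ^ 2 : ℕ) : ℝ) < ((p + q : ℕ) : ℝ) := by exact_mod_cast hpn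
    push_cast at h1
    have : (p : ℝ) ^ 2 / ((p : ℝ) + q) ≤ 1 := by
      rw [div_le_one hnpos]
      exact h1.le
    linarith
  -- the split
  let H : Finset (Finset (Fin p)) := H0.filter (fun I => d I ≤ L)
  let S : Finset (Fin p) := univ.filter (fun e => ((p : ℝ) + 1) * X e < Yp y τ k)
  have hgood2 : ((p : ℝ) + 1) * (Yp y τ k - Yp y τ (k - (p + L))) < Yp y τ k := by
    have := not_le.mp hgood
    push_cast at this
    exact this
  have hHs : ∀ I ∈ H, I ∈ H0 ∧ d I ≤ L := by
    intro I hI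
    simpa [H] using hI
  have hlow : ∀ I ∈ H, (p : ℝ) * Yp y τ k < ((p : ℝ) + 1) * ∑ i ∈ I, X i := by
    intro I hI
    obtain ⟨h0, h1⟩ := hHs I hI
    have h2 := hJ I h0
    have h3 := hd I h0
    have h4 : I.card ≤ p := by
      have := Finset.card_le_univ I
      simpa using this
    have h5 : Yp y τ (k - (p + L)) ≤ Yp y τ (J I) := PTB_le y τ hy (by omega) h2.1
    rw [h2.2.2] at h5
    have h6 : ((p : ℝ) + 1) * Yp y τ (k - (p + L)) ≤ ((p : ℝ) + 1) * ∑ i ∈ I, X i :=
      mul_le_mul_of_nonneg_left h5 (by positivity)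
    nlinarith
  have hup : ∀ I ∈ H, ∑ i ∈ I, X i ≤ Yp y τ k := by
    intro I hI
    obtain ⟨h0, h1⟩ := hHs I hI
    have h2 := hJ I h0
    have h3 := hd I h0
    rw [← h2.2.2]
    exact PTB_le y τ hy (by omega) hkq
  have hHyp : Hyp p S H d := by
    refine ⟨?_, ?_, ?_⟩
    · intro I hI hsub
      have h1 := hlow I hI
      have h2 := hne I (hHs I hI).1
      have h3 : ((p : ℝ) + 1) * ∑ i ∈ I, X i < I.card * Yp y τ k := by
        rw [Finset.mul_sum]
        calc ∑ i ∈ I, ((p : ℝ) + 1) * X i < ∑ _i ∈ I, Yp y τ k := by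
              apply Finset.sum_lt_sum_of_nonempty h2
              intro i hi
              have := hsub hi
              simpa [S] using this
          _ = I.card * Yp y τ k := by rw [Finset.sum_const, nsmul_eq_mul]
      have h4 : (I.card : ℝ) ≤ p := by
        have := Finset.card_le_univ I
        have h5 : I.card ≤ p := by simpa using this
        exact_mod_cast h5
      have h6 : (I.card : ℝ) * Yp y τ k ≤ p * Yp y τ k := mul_le_mul_of_nonneg_right h4 hYk.le
      linarith
    · intro I₁ h1 I₂ h2 hS hsub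
      by_contra hne'
      obtain ⟨e, he2, he1⟩ : ∃ e ∈ I₂, e ∉ I₁ := by
        by_contra hcon
        push Not at hcon
        exact hne' (Finset.Subset.antisymm hsub hcon)
      have heS : e ∉ S := by
        intro h
        apply he1
        have : e ∈ I₂ ∩ S := mem_inter.mpr ⟨he2, h⟩
        rw [← hS] at this
        exact (mem_inter.mp this).1
      have hXe : Yp y τ k ≤ ((p : ℝ) + 1) * X e := by
        by_contra hcon
        apply heS
        simp only [S, mem_filter, mem_univ, true_and]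
        exact not_le.mp hcon
      have hsum : ∑ i ∈ I₁, X i + X e ≤ ∑ i ∈ I₂, X i := by
        have h3 : insert e I₁ ⊆ I₂ := by
          intro z hz
          rcases mem_insert.mp hz with rfl | hz
          · exact he2
          · exact hsub hz
        calc ∑ i ∈ I₁, X i + X e = ∑ i ∈ insert e I₁, X i := by
              rw [Finset.sum_insert he1, add_comm]
          _ ≤ ∑ i ∈ I₂, X i :=
              Finset.sum_le_sum_of_subset_of_nonneg h3 (fun i _ _ => (hX i).le)
      have h3 := hlow I₁ h1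
      have h4 := hup I₂ h2
      nlinarith
    · intro I₁ h1 I₂ h2 hss
      obtain ⟨h10, -⟩ := hHs I₁ h1
      obtain ⟨h20, -⟩ := hHs I₂ h2
      have hc : I₁.card < I₂.card := Finset.card_lt_card hss
      obtain ⟨e, he2, he1⟩ := Finset.exists_of_ssubset hss
      have hsum : ∑ i ∈ I₁, X i < ∑ i ∈ I₂, X i :=
        Finset.sum_lt_sum_of_subset hss.1 he2 he1 (hX e) (fun i _ _ => (hX i).le)
      have hj1 := hJ I₁ h10
      have hj2 := hJ I₂ h20
      have hlt : J I₁ < J I₂ := by
        by_contra hcon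
        have := PTB_le y τ hy (not_lt.mp hcon) hj1.1
        rw [hj1.2.2, hj2.2.2] at this
        linarith
      have e1 := hd I₁ h10
      have e2 := hd I₂ h20
      omega
  have hGG : ∑ I ∈ H, ρ ^ I.card * (1 - ρ) ^ (p - I.card) * R ^ d I ≤
      (1 - ε) * (2 * ρ * (1 - ρ)) := by
    rcases Nat.lt_or_ge (univ \ S).card 3 with h | h
    · exact hGG2 p S H d ε ρ R hHyp hε hρ1 hρ2 hR0 (le_of_eq hRdef) hp (by omega)
    · exact hGG3 p S H d ε ρ R hHyp hε hρ1 hρ2 hR0 (le_of_eq hRdef) h
  have hrest : ∑ I ∈ H0.filter (fun I => ¬ d I ≤ L),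
      ρ ^ I.card * (1 - ρ) ^ (p - I.card) * R ^ d I ≤ R ^ L := by
    calc ∑ I ∈ H0.filter (fun I => ¬ d I ≤ L), ρ ^ I.card * (1 - ρ) ^ (p - I.card) * R ^ d I
        ≤ ∑ I ∈ H0.filter (fun I => ¬ d I ≤ L), ρ ^ I.card * (1 - ρ) ^ (p - I.card) * R ^ L := by
          apply Finset.sum_le_sum
          intro I hI
          have h1 : ¬ d I ≤ L := (mem_filter.mp hI).2
          apply mul_le_mul_of_nonneg_left _ (by positivity)
          exact pow_le_pow_of_le_one hR0 hR1 (by omega)
      _ ≤ ∑ I : Finset (Fin p), ρ ^ I.card * (1 - ρ) ^ (p - I.card) * R ^ L := by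
          apply Finset.sum_le_sum_of_subset_of_nonneg (Finset.subset_univ _)
          intro I _ _
          positivity
      _ = R ^ L := by
          rw [← Finset.sum_mul]
          have h := Fintype.sum_pow_mul_eq_add_pow (Fin p) ρ (1 - ρ)
          rw [Fintype.card_fin] at h
          rw [h]
          have : ρ + (1 - ρ) = 1 := by ring
          rw [this, one_pow, one_mul]
  calc (1 - (p : ℝ) ^ 2 / ((p : ℝ) + q)) * (Wt X y k τ : ℝ)
      ≤ (1 - (p : ℝ) ^ 2 / ((p : ℝ) + q)) * ((∑ I ∈ H0, q.choose (J I) : ℕ) : ℝ) := by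
        apply mul_le_mul_of_nonneg_left _ hfac
        exact_mod_cast hW
    _ = ∑ I ∈ H0, (1 - (p : ℝ) ^ 2 / ((p : ℝ) + q)) * (q.choose (J I) : ℝ) := by
        push_cast
        rw [Finset.mul_sum]
    _ ≤ ∑ I ∈ H0, ρ ^ I.card * (1 - ρ) ^ (p - I.card) * R ^ d I * ((p + q).choose k : ℝ) :=
        Finset.sum_le_sum hterm
    _ = (∑ I ∈ H0, ρ ^ I.card * (1 - ρ) ^ (p - I.card) * R ^ d I) * ((p + q).choose k : ℝ) := by
        rw [Finset.sum_mul]
    _ ≤ ((1 - ε) * (2 * ρ * (1 - ρ)) + R ^ L) * ((p + q).choose k : ℝ) := by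
        apply mul_le_mul_of_nonneg_right _ hC0
        rw [← Finset.sum_filter_add_sum_filter_not H0 (fun I => d I ≤ L)]
        exact add_le_add hGG hrest

end Pool.Agent.helper59.NM
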