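import Pool.Agent.helper55.NM.Spec2

set_option autoImplicit false

namespace Pool.Agent.helper59.NM

open Pool.Agent.NM Finset Nat

theorem FLR : FLR_stmt := by
  intro ε hε
  obtain ⟨N, hN⟩ := exists_nat_gt (1 / ε)
  refine ⟨N + 12, ?_⟩
  intro n k hn h1 h2
  have hnN : (N : ℝ) + 12 ≤ n := by exact_mod_cast hn
  have hεn : 1 < ε * n := by
    have h3 : 1 / ε < n := by linarith
    rw [div_lt_iff₀ hε] at h3
    linarith
  have h3 : ((n + 1 : ℕ) : ℝ) < ((3 * k : ℕ) : ℝ) := by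
    push_cast
    nlinarith
  have h4 : ((2 * k : ℕ) : ℝ) ≤ ((n : ℕ) : ℝ) := by
    push_cast
    nlinarith
  have h5 : n + 1 < 3 * k := by exact_mod_cast h3
  have h6 : 2 * k ≤ n := by exact_mod_cast h4
  have h7 : 0 < k := by omega
  refine ⟨?_, by omega, by omega⟩
  apply Nat.div_eq_of_lt_le
  · omega
  · omega

end Pool.Agent.helper59.NM
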