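import Pool.Agent.helper55.NM.Spec3

set_option autoImplicit false

namespace Pool.Agent.helper59.NM

open Pool.Agent.NM Pool.Agent.helper72.UP Finset Nat

theorem TR3_mono (q k d : ℕ) (h : 2 * (k + d) ≤ q + 1) : q.choose k ≤ q.choose (k + d) := by
  induction d with
  | zero => simp
  | succ d ih =>
    have h1 := ih (by omega)
    have h2 : q.choose (k + d) ≤ q.choose (k + d + 1) := by
      have h3 := Nat.choose_succ_right_eq q (k + d)
      have h4 : k + d + 1 ≤ q - (k + d) := by omega
      have h5 : q.choose (k + d) * (k + d + 1) ≤ q.choose (k + d + 1) * (k + d + 1) := by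
        calc q.choose (k + d) * (k + d + 1) ≤ q.choose (k + d) * (q - (k + d)) :=
              Nat.mul_le_mul_left _ h4
          _ = q.choose (k + d + 1) * (k + d + 1) := h3.symm
      exact Nat.le_of_mul_le_mul_right h5 (by omega)
    exact h1.trans h2

theorem TR3_mono2 (q j m : ℕ) (hj : j ≤ m) (h : 2 * m ≤ q + 1) : q.choose j ≤ q.choose m := by
  obtain ⟨d, rfl⟩ := Nat.exists_eq_add_of_le hj
  exact TR3_mono q j d h

theorem TR3_chain (n k : ℕ) (h1 : n + 1 ≤ 3 * k) (h2 : 100 * k ≤ 37 * n) (hn : 3 ≤ n)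
    (C : Finset (ℕ × ℕ)) (hC : ∀ c ∈ C, 1 ≤ c.1 ∧ 1 ≤ c.2 ∧ c.1 + c.2 ≤ k)
    (hch : Pool.Agent.NK.IsCh C) :
    ∑ c ∈ C, (3 : ℕ).choose c.1 * (n - 3).choose c.2 ≤ 2 * (n - 2).choose (k - 1) := by
  have hk4 : 4 ≤ k := by omega
  have hn11 : 11 ≤ n := by omega
  set q := n - 3 with hq
  -- uniqueness of the first coordinate
  have huniq : ∀ c ∈ C, ∀ c' ∈ C, c.1 = c'.1 → c = c' := by
    intro c hc c' hc' he
    by_contra hne
    rcases hch c hc c' hc' hne with h | h
    · omega
    · omega
  have hlt : ∀ c ∈ C, ∀ c' ∈ C, c.1 < c'.1 → c.2 < c'.2 := by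
    intro c hc c' hc' he
    have hne : c ≠ c' := by
      intro h
      rw [h] at he
      omega
    rcases hch c hc c' hc' hne with h | h
    · omega
    · omega
  have hSle : ∀ i M : ℕ, (∀ c ∈ C, c.1 = i → q.choose c.2 ≤ M) →
      ∑ c ∈ C.filter (fun c => c.1 = i), (3 : ℕ).choose c.1 * q.choose c.2 ≤
        (3 : ℕ).choose i * M := by
    intro i M hM
    have hcard : (C.filter (fun c => c.1 = i)).card ≤ 1 := by
      rw [Finset.card_le_one]
      intro a ha b hb
      rw [mem_filter] at ha hb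
      exact huniq a ha.1 b hb.1 (by rw [ha.2, hb.2])
    calc ∑ c ∈ C.filter (fun c => c.1 = i), (3 : ℕ).choose c.1 * q.choose c.2
        ≤ (C.filter (fun c => c.1 = i)).card • ((3 : ℕ).choose i * M) := by
          apply Finset.sum_le_card_nsmul
          intro c hc
          rw [mem_filter] at hc
          rw [hc.2]
          exact Nat.mul_le_mul_left _ (hM c hc.1 hc.2)
      _ ≤ 1 • ((3 : ℕ).choose i * M) := by
          rw [smul_eq_mul, smul_eq_mul]
          exact Nat.mul_le_mul_right _ hcard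
      _ = (3 : ℕ).choose i * M := by rw [one_smul]
  have hsplit : ∑ c ∈ C, (3 : ℕ).choose c.1 * q.choose c.2 =
      ∑ c ∈ C.filter (fun c => c.1 = 1), (3 : ℕ).choose c.1 * q.choose c.2 +
      ∑ c ∈ C.filter (fun c => c.1 = 2), (3 : ℕ).choose c.1 * q.choose c.2 +
      ∑ c ∈ C.filter (fun c => c.1 = 3), (3 : ℕ).choose c.1 * q.choose c.2 := by
    rw [Finset.sum_filter, Finset.sum_filter, Finset.sum_filter, ← Finset.sum_add_distrib,
      ← Finset.sum_add_distrib]
    apply Finset.sum_congr rfl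
    intro c hc
    have h := (hC c hc).1
    rcases Nat.lt_or_ge 3 c.1 with h4 | h4
    · have e : (3 : ℕ).choose c.1 = 0 := Nat.choose_eq_zero_of_lt h4
      rw [e]
      simp
    · have : c.1 = 1 ∨ c.1 = 2 ∨ c.1 = 3 := by omega
      rcases this with e | e | e
      · simp [e]
      · simp [e]
      · simp [e]
  have hw1 : ∀ j ≤ k - 1, q.choose j ≤ q.choose (k - 1) := fun j hj =>
    TR3_mono2 q j (k - 1) hj (by omega)
  have hw2 : ∀ j ≤ k - 2, q.choose j ≤ q.choose (k - 2) := fun j hj =>
    TR3_mono2 q j (k - 2) hj (by omega)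
  have hw3 : ∀ j ≤ k - 3, q.choose j ≤ q.choose (k - 3) := fun j hj =>
    TR3_mono2 q j (k - 3) hj (by omega)
  -- the ratios
  have hr1 : 63 * q.choose (k - 2) ≤ 37 * q.choose (k - 1) := by
    have e := Nat.choose_succ_right_eq q (k - 2)
    have e1 : k - 2 + 1 = k - 1 := by omega
    rw [e1] at e
    have h3 : 63 * (k - 1) ≤ 37 * (q - (k - 2)) := by omega
    have h4 : (63 * q.choose (k - 2)) * (k - 1) ≤ (37 * q.choose (k - 1)) * (k - 1) := by
      calc (63 * q.choose (k - 2)) * (k - 1) = q.choose (k - 2) * (63 * (k - 1)) := by ring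
        _ ≤ q.choose (k - 2) * (37 * (q - (k - 2))) := Nat.mul_le_mul_left _ h3
        _ = 37 * (q.choose (k - 2) * (q - (k - 2))) := by ring
        _ = 37 * (q.choose (k - 1) * (k - 1)) := by rw [← e]
        _ = (37 * q.choose (k - 1)) * (k - 1) := by ring
    exact Nat.le_of_mul_le_mul_right h4 (by omega)
  have hr2 : 63 * q.choose (k - 3) ≤ 37 * q.choose (k - 2) := by
    have e := Nat.choose_succ_right_eq q (k - 3)
    have e1 : k - 3 + 1 = k - 2 := by omega
    rw [e1] at e
    have h3 : 63 * (k - 2) ≤ 37 * (q - (k - 3)) := by omega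
    have h4 : (63 * q.choose (k - 3)) * (k - 2) ≤ (37 * q.choose (k - 2)) * (k - 2) := by
      calc (63 * q.choose (k - 3)) * (k - 2) = q.choose (k - 3) * (63 * (k - 2)) := by ring
        _ ≤ q.choose (k - 3) * (37 * (q - (k - 3))) := Nat.mul_le_mul_left _ h3
        _ = 37 * (q.choose (k - 3) * (q - (k - 3))) := by ring
        _ = 37 * (q.choose (k - 2) * (k - 2)) := by rw [← e]
        _ = (37 * q.choose (k - 2)) * (k - 2) := by ring
    exact Nat.le_of_mul_le_mul_right h4 (by omega)
  have hfin : 3 * q.choose (k - 1) ≤ 2 * (n - 2).choose (k - 1) := by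
    have e : (n - 2).choose (k - 1) * (n - 2 - (k - 1)) = (n - 2) * q.choose (k - 1) := by
      have h := Nat.choose_mul_succ_eq q (k - 1)
      have e1 : q + 1 = n - 2 := by omega
      rw [e1] at h
      linarith
    have h3 : 3 * (n - 2 - (k - 1)) ≤ 2 * (n - 2) := by omega
    have h4 : (3 * q.choose (k - 1)) * (n - 2) ≤ (2 * (n - 2).choose (k - 1)) * (n - 2) := by
      calc (3 * q.choose (k - 1)) * (n - 2) = 3 * ((n - 2) * q.choose (k - 1)) := by ring
        _ = 3 * ((n - 2).choose (k - 1) * (n - 2 - (k - 1))) := by rw [e]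
        _ = (n - 2).choose (k - 1) * (3 * (n - 2 - (k - 1))) := by ring
        _ ≤ (n - 2).choose (k - 1) * (2 * (n - 2)) := Nat.mul_le_mul_left _ h3
        _ = (2 * (n - 2).choose (k - 1)) * (n - 2) := by ring
    exact Nat.le_of_mul_le_mul_right h4 (by omega)
  have c1 : (3 : ℕ).choose 1 = 3 := by decide
  have c2 : (3 : ℕ).choose 2 = 3 := by decide
  have c3 : (3 : ℕ).choose 3 = 1 := by decide
  rw [hsplit]
  by_cases hA : ∃ c ∈ C, c.1 = 3
  · obtain ⟨c, hc, hc3⟩ := hA
    have hcc := hC c hc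
    have hall : ∀ c' ∈ C, c'.1 ≤ 3 → c'.2 ≤ k - 3 := by
      intro c' hc' h
      rcases Nat.lt_or_ge c'.1 3 with h5 | h5
      · have := hlt c' hc' c hc (by omega)
        omega
      · have : c' = c := huniq c' hc' c hc (by omega)
        rw [this]
        omega
    have s1 := hSle 1 (q.choose (k - 3)) (fun c' hc' h => hw3 _ (hall c' hc' (by omega)))
    have s2 := hSle 2 (q.choose (k - 3)) (fun c' hc' h => hw3 _ (hall c' hc' (by omega)))
    have s3 := hSle 3 (q.choose (k - 3)) (fun c' hc' h => hw3 _ (hall c' hc' (by omega)))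
    rw [c1] at s1
    rw [c2] at s2
    rw [c3] at s3
    omega
  · have s3 := hSle 3 0 (fun c' hc' h => absurd ⟨c', hc', h⟩ hA)
    by_cases hB : ∃ c ∈ C, c.1 = 2
    · obtain ⟨c, hc, hc2⟩ := hB
      have hcc := hC c hc
      have s2 := hSle 2 (q.choose (k - 2)) (fun c' hc' h => hw2 _ (by
        have := hC c' hc'
        omega))
      have s1 := hSle 1 (q.choose (k - 3)) (fun c' hc' h => hw3 _ (by
        have := hlt c' hc' c hc (by omega)
        omega))
      rw [c1] at s1
      rw [c2] at s2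
      omega
    · have s2 := hSle 2 0 (fun c' hc' h => absurd ⟨c', hc', h⟩ hB)
      have s1 := hSle 1 (q.choose (k - 1)) (fun c' hc' h => hw1 _ (by
        have := hC c' hc'
        omega))
      rw [c1] at s1
      omega

theorem TR3 (hPRA : PRA_stmt) : TR3_stmt := by
  intro n k x h1 h2 hx h3
  have hneg : (univ.filter (fun i => x i < 0)).card = n - 3 := by
    have e : univ.filter (fun i => x i < 0) = (univ.filter (fun i => 0 < x i))ᶜ := by
      ext i
      simp only [mem_filter, mem_univ, true_and, mem_compl, not_lt]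
      exact ⟨fun h => h.le, fun h => lt_of_le_of_ne h (hx i)⟩
    rw [e, Finset.card_compl, h3, Fintype.card_fin]
  have hn : 3 ≤ n := by
    have := Finset.card_le_univ (univ.filter (fun i => 0 < x i))
    rw [h3, Fintype.card_fin] at this
    exact this
  apply hPRA n k _ x hx
  intro C hC hch
  have h := TR3_chain n k h1 h2 hn C hC hch
  simp only [h3, hneg]
  exact h

end Pool.Agent.helper59.NM
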